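import Pool.Agent.Q58.LG.BseT

/-!
MP_f72953_ag, Q1: lower bounds for the Kodaira dimension, and Iitaka's inequality, for fibrations whose
fibres correspond in small degree to products of very general complete intersections (and cyclic
covers, and their subvarieties) and of varieties with positive geometric genus.

Let `X → B` be a dominant rational map of complex varieties, with function fields `B ⊆ K`, of
dimensions `β` and `w`. Let `X' → X` be generically finite of degree `r = [E : K]`, with any
ramification, and let `X' → B × Y_1 × ... × Y_s` be generically finite of any degree, over `B`: the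
function fields `M i` of the `Y_i`, of dimensions `b i`, are subfields of the function field `E` of
`X'`, `w = β + ∑ b i`, and `E` is algebraic over the field generated by `B` and the `M i`. Let `x i` be
points over `M i`, with some coordinate `1`, such that the coordinates of all `x i` generate `E` over
`K`. Let `S` be a set of indices, and suppose:

* for `i ∈ S`, `Y_i` is finite over a cyclic cover of a subvariety of a generic complete
  intersection, in the range for `2 r` (`OverGeneric k (2 r) (M i) (b i) (x i)`): `V ⊆ ℙⁿ` is closed,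
  defined over the algebraic closure of a subfield `k` of `ℂ`, of dimension at most `m`; the `F_a` are
  forms of degrees `d_a` with coefficients which are algebraically independent over `k`; the rational
  map `x i` to `V` is generically finite onto its image, `F_a (x i) = 0` for `a ∈ C`, and for the other
  `a`, `F_a (x i)` is a nonzero `q_a`-th power, `q_a ∣ d_a`, `q_a ≥ 1`; and
  `2 m + 2 r + ∑_{a ∉ C} d_a / q_a ≤ ∑ d_a + |C| + b i`, `b i ≥ 1`;

* for `i ∉ S`, either the same with `r` in place of `2 r`, or `Y_i` has a nonzero canonical form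
  (`HasForm`, positive geometric genus) and all coordinates of `x i` are `1`.

(1) `κ (X) ≥ κ (B) + ∑_{i ∈ S} b i`.

(2) Let `F` be the generic fibre of `X → B`, the variety over `B` with function field `K`. If
`κ (F) ≤ ∑_{i ∈ S} b i` then Iitaka's inequality `κ (X) ≥ κ (F) + κ (B)` holds.

For instance (2) applies if `S = ∅` and `κ (F) = 0`; and if `X' = B' × ∏ Y_i`, `B'` finite over `B`, where
the `Y_i` with `i ∉ S` have Kodaira dimension `0`, since then `κ (F) ≤ κ (∏ Y_i) = ∑_{i ∈ S} b i` (this
remark is not in the Lean).

`KodGe k K n Bd h` (`Pool/Agent/W602/GT/KDefs.lean`): the variety over `k` of dimension `n` with function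
field `K`, and empty boundary `Bd`, has Kodaira dimension at least `h`. `OverGeneric`, `HasForm`:
`Pool/Agent/Q58/LG/WdgP.lean`.
-/

set_option autoImplicit false

namespace Pool.Agent.Results.MP_f72953_ag.CorrespondingFibres

open FF
open Pool.Agent.W602.GT (KodGe)
open Pool.Agent.Q58.LG (OverGeneric HasForm Many2)

theorem mono {k K : Type} [Field k] [Field K] [Algebra k K] {n a c : ℕ} {Bd : Place k K → Prop}
    (hac : c ≤ a) (h : KodGe k K n Bd a) : KodGe k K n Bd c := by
  obtain ⟨N, hN, ω, hω, D, hD, hind⟩ := h
  refine ⟨N, hN, fun i => ω (Fin.castLE (Nat.succ_le_succ hac) i), fun i => hω _, D, hD, ?_⟩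
  have h1 := hind.comp (Fin.castLE hac) (Fin.castLE_injective hac)
  exact h1

theorem result {k : Type} [Field k] [Algebra k ℂ]
    -- the function fields of `B`, `X` and `X'`
    {B K E : Type} [Field B] [Field K] [Field E] [Algebra ℂ B] [Algebra ℂ K] [Algebra ℂ E]
    [Algebra B K] [IsScalarTower ℂ B K] [Algebra K E] [IsScalarTower ℂ K E] [FiniteDimensional K E]
    [Algebra B E] [IsScalarTower ℂ B E] [IsScalarTower B K E]
    [Algebra.EssFiniteType ℂ B] [Algebra.EssFiniteType ℂ K]
    {β w : ℕ} (hB : Algebra.trdeg ℂ B = β) (hK : Algebra.trdeg ℂ K = w)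
    -- the map from `X'` to `B × Y_1 × ... × Y_s`
    {s : ℕ} {b n : Fin s → ℕ} (hw : w = β + ∑ i, b i) (M : Fin s → IntermediateField ℂ E)
    [∀ i, Algebra.EssFiniteType ℂ (M i)] (hM : ∀ i, Algebra.trdeg ℂ (M i) = b i)
    (halg : Algebra.IsAlgebraic
      ((IsScalarTower.toAlgHom ℂ B E).fieldRange ⊔ ⨆ i, M i : IntermediateField ℂ E) E)
    -- the points `x i`, and the kinds of factors
    (x : ∀ i, Fin (n i + 1) → M i) (j0 : ∀ i, Fin (n i + 1)) (hx1 : ∀ i, x i (j0 i) = 1)
    (hgenK : IntermediateField.adjoin K (⋃ i, Set.range fun j => ((x i j : M i) : E)) = ⊤)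
    (S : Finset (Fin s))
    (hS : ∀ i ∈ S, OverGeneric k (2 * Module.finrank K E) (M i) (b i) (x i))
    (hx : ∀ i, i ∉ S → OverGeneric k (Module.finrank K E) (M i) (b i) (x i) ∨
      ((∀ j, x i j = 1) ∧ HasForm (M i) (b i))) :
    -- (1)
    (∀ h : ℕ, KodGe ℂ B β (fun _ => False) h →
      KodGe ℂ K w (fun _ => False) (h + ∑ i ∈ S, b i)) ∧
    -- (2)
    (¬ KodGe B K (∑ i, b i) (fun _ => False) (∑ i ∈ S, b i + 1) →
      ∀ h a : ℕ, KodGe ℂ B β (fun _ => False) h → KodGe B K (∑ i, b i) (fun _ => False) a →
        KodGe ℂ K w (fun _ => False) (h + a)) := by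
  classical
  have hr : 1 ≤ Module.finrank K E := Module.finrank_pos
  have key : ∀ h : ℕ, KodGe ℂ B β (fun _ => False) h →
      KodGe ℂ K w (fun _ => False) (h + ∑ i ∈ S, b i) := by
    intro h hk
    refine Pool.Agent.Q58.LG.base_strong (N₁ := 2 * Module.finrank K E - 1)
      (N₂ := Module.finrank K E - 1) (p := fun i => if i ∈ S then x i else fun _ => 1)
      (q := fun i => if i ∈ S then fun _ => 1 else x i) (j0 := j0) hB hK hw hk M hM halg
      (fun i => ?_) (fun i => ?_) ?_ (fun i => ?_) S (fun i hi => ?_) (by omega) (by omega)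
    · split_ifs
      · exact hx1 i
      · rfl
    · split_ifs
      · rfl
      · exact hx1 i
    · rw [_root_.eq_top_iff, ← hgenK, IntermediateField.adjoin_le_iff]
      rintro _ ⟨_, ⟨i, rfl⟩, ⟨j, rfl⟩⟩
      refine IntermediateField.subset_adjoin K _ (Set.mem_iUnion.2 ⟨i, ?_⟩)
      by_cases hi : i ∈ S
      · left
        refine ⟨j, ?_⟩
        simp only [if_pos hi]
      · right
        refine ⟨j, ?_⟩
        simp only [if_neg hi]
    · by_cases hi : i ∈ S
      · simp only [if_pos hi]
        obtain ⟨Φ, h1, h2, h3⟩ := Pool.Agent.Q58.LG.many_gen (k := k)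
          (N := 2 * Module.finrank K E - 1) (hM i) (hx1 i) (by
            rw [Nat.sub_add_cancel (by omega)]
            exact hS i hi)
        refine ⟨Φ, h1, h2, fun f g P hP => ?_⟩
        simp only [Finset.prod_const_one, mul_one]
        exact (h3 f P hP).2 fun h => h
      · simp only [if_neg hi]
        rcases hx i hi with h0 | ⟨h0, h0'⟩
        · obtain ⟨Φ, h1, h2, h3⟩ := Pool.Agent.Q58.LG.many_gen (k := k)
            (N := Module.finrank K E - 1) (hM i) (hx1 i) (by
              rw [Nat.sub_add_cancel (by omega)]
              exact h0)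
          refine ⟨Φ, h1, h2, fun f g P hP => ?_⟩
          simp only [Finset.prod_const_one, one_mul]
          exact (h3 g P hP).2 fun h => h
        · obtain ⟨Φ, h1, h2, h3⟩ := h0'
          refine ⟨Φ, h1, h3, fun f g P hP => ?_⟩
          simp only [Finset.prod_const_one, one_mul, h0]
          exact h2 P hP
    · obtain ⟨A, iA, iD, d, F, V, m, C, q, -, -, -, -, -, -, h1, -⟩ := hS i hi
      have h2 : (if i ∈ S then x i else fun _ => 1) = x i := if_pos hi
      change Algebra.IsAlgebraic (IntermediateField.adjoin ℂ
        (Set.range (if i ∈ S then x i else fun _ => 1))) (M i)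
      rw [h2]
      exact h1
  refine ⟨key, fun hn h a hh ha => ?_⟩
  have h1 : a ≤ ∑ i ∈ S, b i := by
    by_contra hlt
    push Not at hlt
    exact hn (mono hlt ha)
  exact mono (Nat.add_le_add_left h1 h) (key h hh)

end Pool.Agent.Results.MP_f72953_ag.CorrespondingFibres
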