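import Pool.Agent.Y174.RA.A7
import Pool.Agent.Y174.SD.G14

/-!
MP_f72953_ag, Q1: `κ (E) ≥ κ (B)`, and Iitaka's inequality `κ (E) ≥ κ (F) + κ (B)` if `κ (F) ≤ 0`, for
the fibrations for which the symmetric differentials of `E` have no common zeros on the vertical
tangent vectors at a general point; also for pairs.
-/

set_option autoImplicit false
set_option linter.overlappingInstances false

universe u v

open Pool.Agent.W619.TW Pool.Agent.W619.Y Pool.Agent.W619.PQ Pool.Agent.Y174 FF

namespace Pool.Agent.Results.MP_f72953_ag.GeneratedRelativeDifferentials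

/-- The regular symmetric differentials of positive degrees of the variety of dimension `n` with
function field `K` have no common zeros on the tangent vectors at the (geometric) generic point along
the fibres of the map to the variety with function field `L`: let `E 0, ..., E (n - 1)` be linearly
independent rational vector fields, and `c i`, not all zero, in the algebraic closure of `K`, such
that `∑ i, c i * E i x = 0` for all `x` in `L`; then there is a regular symmetric differential `s`, of
some degree `m ≥ 1`, with `s (∑ i, c i • E i) ≠ 0`, where `s (∑ i, a i • E i)` is the polynomial `p`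
in the `a i`. -/
def NoVerticalZeros (k : Type v) (L K : Type u) [Field k] [Field L] [Field K] [Algebra k K]
    [Algebra L K] (n : ℕ) : Prop :=
  ∀ E : Fin n → Derivation k K K, LinearIndependent K E →
    ∀ c : Fin n → AlgebraicClosure K, c ≠ 0 →
      (∀ x : L, ∑ i, c i * algebraMap K (AlgebraicClosure K) (E i (algebraMap L K x)) = 0) →
      ∃ (m : ℕ) (s : Derivation k K K → K) (p : MvPolynomial (Fin n) K), 1 ≤ m ∧
        IsSymDiff m s ∧ SymReg n s ∧
        (∀ a : Fin n → K, s (∑ i, a i • E i) = MvPolynomial.eval a p) ∧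
        MvPolynomial.aeval c p ≠ 0

/-- A regular symmetric differential is one of the orbifold without boundary. -/
theorem symOrb_zero {k K : Type} [Field k] [CharZero k] [Field K] [Algebra k K] {n m : ℕ}
    {s : Derivation k K K → K} (hs : IsSymDiff m s) (h : SymReg n s) :
    SymOrb n (fun _ : Place k K => 0) s := by
  classical
  intro v hv D E hD hE
  obtain ⟨p, hp, hps⟩ := hs 2 ![D, E]
  have hval : ∀ a : Fin 2 → K, s (a 0 • D + a 1 • E) = MvPolynomial.eval a p := by
    intro a
    have h1 := hps a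
    rwa [Fin.sum_univ_two] at h1
  have hE' : ∀ f, v.Reg f → v.Reg (E f) := OB.Lg.pres hE
  have hreg : ∀ β : Fin 2 → k, v.Reg (MvPolynomial.eval (fun i => algebraMap k K (β i)) p) := by
    intro β
    rw [← hval]
    refine h v hv _ fun f hf => ?_
    change v.Reg (algebraMap k K (β 0) * D f + algebraMap k K (β 1) * E f)
    exact v.reg_add (v.reg_mul (v.reg_const (β 0)) (hD f hf))
      (v.reg_mul (v.reg_const (β 1)) (hE' f hf))
  have hcoef : ∀ e : Fin 2 →₀ ℕ, v.Reg (p.coeff e) := by
    intro e
    by_cases he : e.degree = m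
    · exact coeff_reg (v := v) ⟨p, (MvPolynomial.mem_homogeneousSubmodule m p).2 hp⟩ hreg ⟨e, he⟩
    · rw [hp.coeff_eq_zero he]
      exact v.reg_zero
  refine ⟨MvPolynomial.aeval ![Polynomial.X, 1] p, fun x => ?_, fun i => ?_⟩
  · have h1 := hval ![x, 1]
    rw [Matrix.cons_val_zero, Matrix.cons_val_one, Matrix.cons_val_fin_one, one_smul] at h1
    rw [h1]
    have h2 := MvPolynomial.comp_aeval_apply (R := K) (f := (![Polynomial.X, 1] : Fin 2 →
      Polynomial K)) (Polynomial.aeval x) p
    rw [Polynomial.coe_aeval_eq_eval] at h2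
    rw [h2]
    have h3 : (fun i => Polynomial.eval x ((![Polynomial.X, 1] : Fin 2 → Polynomial K) i)) =
        ![x, 1] := by
      funext i
      fin_cases i
      · simp
      · simp
    rw [h3]
    rfl
  · have h1 : v.Reg ((MvPolynomial.aeval (![Polynomial.X, 1] : Fin 2 → Polynomial K) p).coeff
        i) := by
      rw [MvPolynomial.aeval_def, MvPolynomial.eval₂_eq', Polynomial.finset_sum_coeff]
      refine Finset.sum_induction _ v.Reg (fun a b ha hb => v.reg_add ha hb) v.reg_zero
        fun e _ => ?_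
      rw [Fin.prod_univ_two, Matrix.cons_val_zero, Matrix.cons_val_one,
        Matrix.cons_val_fin_one, one_pow, mul_one,
        ← Polynomial.C_eq_algebraMap, Polynomial.coeff_C_mul, Polynomial.coeff_X_pow]
      split_ifs with h0
      · rw [mul_one]
        exact hcoef e
      · rw [mul_zero]
        exact v.reg_zero
    rcases h1 with h1 | h1
    · exact Or.inl h1
    · refine Or.inr ?_
      rw [mul_zero, neg_zero]
      exact_mod_cast h1

theorem noBaseRel_zero {k L K : Type} [Field k] [CharZero k] [Field L] [Field K] [Algebra k K]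
    [Algebra L K] {n : ℕ} (h : NoVerticalZeros k L K n) :
    NoBaseRel L n (fun _ : Place k K => 0) := by
  intro E hE c hc hcv
  obtain ⟨m, s, p, hm, h1, h2, h3, h4⟩ := h E hE c hc hcv
  exact ⟨m, s, p, hm, h1, symOrb_zero h1 h2, h3, h4⟩

/-- Let `X → B` be a dominant rational map of projective varieties with function fields `K` and `L`,
`dim B = d`, `dim X = d + s`, `s ≥ 1`, and let `F` be the function field of the geometric generic
fibre, over the algebraic closure `Λ` of `L`.

1. Pairs. Let `Δ` and `Δ_B` be divisors over `X` and `B` with the multiplicities `δ v ≥ 0` and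
`δB u ≤ 1`, such that `Δ` is at least `Δ_B` in the sense of orbifolds: `1 - δ v ≤ e (1 - δB u)` if
`v` lies over `u` with multiplicity `e`. If the orbifold symmetric differentials of positive degrees
of `(X, Δ)` have no common zeros on the vertical tangent vectors at the geometric generic point, then
`κ (K_X + Δ) ≥ κ (K_B + Δ_B)`; if moreover `κ (K_F + Δ_F) ≤ 0` then
`κ (K_X + Δ) ≥ κ (K_F + Δ_F) + κ (K_B + Δ_B)`, for any divisor `Δ_F` over the fibre.

2. Without boundaries: if the regular symmetric differentials of positive degrees of `X` have no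
common zeros on the vertical tangent vectors at the geometric generic point, then `κ (X) ≥ κ (B)`,
and `κ (X) ≥ κ (F) + κ (B)` if `κ (F) ≤ 0`. -/
theorem result {L K Λ F : Type} [Field L] [Field K] [Field Λ] [Field F]
    [Algebra ℂ L] [Algebra ℂ K] [Algebra L K] [IsScalarTower ℂ L K]
    [Algebra.EssFiniteType ℂ L] [Algebra.EssFiniteType ℂ K] {d s : ℕ}
    (hB : Algebra.trdeg ℂ L = d) (hX : Algebra.trdeg ℂ K = (d + s : ℕ)) (hs : 1 ≤ s)
    -- the geometric generic fibre
    [Algebra L Λ] [IsAlgClosure L Λ] [Algebra Λ F] [Algebra K F] [Algebra L F]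
    [IsScalarTower L Λ F] [IsScalarTower L K F]
    (_ : IntermediateField.adjoin Λ (Set.range (algebraMap K F)) = ⊤) :
    (∀ (δ : Place ℂ K → ℝ) (δB : Place ℂ L → ℝ) (_ : ∀ v, 0 ≤ δ v) (_ : ∀ u, δB u ≤ 1)
        (_ : ∀ (v : Place ℂ K) (u : Place ℂ L) (e : ℕ), LiesOn v u e → 1 - e * (1 - δB u) ≤ δ v)
        (_ : NoBaseRel L (d + s) δ),
      (∀ b, PairKod ℂ L d δB b → PairKod ℂ K (d + s) δ b) ∧
      ∀ δF : Place Λ F → ℝ, ¬ PairKod Λ F s δF 1 → ∀ a b, PairKod Λ F s δF a →
        PairKod ℂ L d δB b → PairKod ℂ K (d + s) δ (a + b)) ∧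
    (NoVerticalZeros ℂ L K (d + s) →
      (∀ b, KodTr ℂ L d b → KodTr ℂ K (d + s) b) ∧
      (¬ KodTr Λ F s 1 → ∀ a b, KodTr Λ F s a → KodTr ℂ L d b → KodTr ℂ K (d + s) (a + b))) := by
  have hL0 : CharZero L := charZero_of_injective_algebraMap (algebraMap ℂ L).injective
  have hΛ0 : CharZero Λ := charZero_of_injective_algebraMap (algebraMap L Λ).injective
  have key : ∀ (δ : Place ℂ K → ℝ) (δB : Place ℂ L → ℝ) (_ : ∀ v, 0 ≤ δ v) (_ : ∀ u, δB u ≤ 1)
      (_ : ∀ (v : Place ℂ K) (u : Place ℂ L) (e : ℕ), LiesOn v u e → 1 - e * (1 - δB u) ≤ δ v)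
      (_ : NoBaseRel L (d + s) δ),
      (∀ b, PairKod ℂ L d δB b → PairKod ℂ K (d + s) δ b) ∧
      ∀ δF : Place Λ F → ℝ, ¬ PairKod Λ F s δF 1 → ∀ a b, PairKod Λ F s δF a →
        PairKod ℂ L d δB b → PairKod ℂ K (d + s) δ (a + b) := by
    intro δ δB h1 h2 h3 h4
    have h5 : ∀ b, PairKod ℂ L d δB b → PairKod ℂ K (d + s) δ b := fun b hb =>
      RA.main_rel ‹_› ‹_› hB hX hs h1 h2 h3 h4 hb
    refine ⟨h5, fun δF h6 a b ha hb => ?_⟩
    have h7 : a = 0 := by
      by_contra h0
      exact h6 (RA.kod_le (Nat.one_le_iff_ne_zero.2 h0) ha)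
    rw [h7, zero_add]
    exact h5 b hb
  refine ⟨key, fun hN => ?_⟩
  obtain ⟨h1, h2⟩ := key (fun _ => 0) (fun _ => 0) (fun _ => le_rfl) (fun _ => zero_le_one)
    (fun v u e he => by
      have h1 : (1 : ℝ) ≤ e := by exact_mod_cast he.1
      linarith) (noBaseRel_zero hN)
  refine ⟨fun b hb => ?_, fun h3 a b ha hb => ?_⟩
  · exact SD.kod_zero.1 (h1 b (SD.kod_zero.2 hb))
  · exact SD.kod_zero.1 (h2 (fun _ => 0) (fun h0 => h3 (SD.kod_zero.1 h0)) a b
      (SD.kod_zero.2 ha) (SD.kod_zero.2 hb))

end Pool.Agent.Results.MP_f72953_ag.GeneratedRelativeDifferentials
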