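import Pool.Agent.Q16.AMP.Basic

/-!
# Iitaka's conjecture: failure is linear, so an error `o(dim)` may be allowed

Let `δ(f) = κ(F) + κ(B) - κ(E)` for a fibration `f : E → B` with general fibre `F` and
`κ(F), κ(B) ≥ 0`. Iitaka's conjecture says `δ(f) ≤ 0`. We show that if it fails in dimension `n₀` then
in each dimension `n ≥ n₀` there are fibrations with `δ ≥ ⌊n / n₀⌋`, and that the conjecture is
equivalent to: for every `c > 0` there are arbitrarily large `n` with `δ(f) ≤ c n` for all `f` with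
`dim E = n` (and `κ(F), κ(B) ≥ w`, for any prescribed `w`).
-/

set_option autoImplicit false

namespace Pool.Agent.Results.MP_f72953_ag.LinearFailure

open Filter Pool.Agent.Q16.AMP

universe u

/-- Fibrations `f : E → B` of smooth complex projective varieties, with general fibre `F`. Kodaira
dimensions are elements of `ℕ ∪ {-∞}`, with `-∞ + x = -∞`. -/
structure Fibs where
  /-- the fibrations -/
  Fib : Type u
  /-- the dimension of `E` -/
  dim : Fib → ℕ
  /-- `κ(E)` -/
  kE : Fib → WithBot ℕ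
  /-- `κ(F)` -/
  kF : Fib → WithBot ℕ
  /-- `κ(B)` -/
  kB : Fib → WithBot ℕ

/-- The known properties. -/
structure IsKnown (T : Fibs.{u}) : Prop where
  /-- the product `f × g : E × E' → B × B'` is a fibration with general fibre `F × F'`, and the
  Kodaira dimension of a product is the sum of the Kodaira dimensions -/
  prod : ∀ f g : T.Fib, ∃ h : T.Fib, T.dim h = T.dim f + T.dim g ∧ T.kE h = T.kE f + T.kE g ∧
    T.kF h = T.kF f + T.kF g ∧ T.kB h = T.kB f + T.kB g
  /-- the identity of an elliptic curve -/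
  elliptic : ∃ g : T.Fib, T.dim g = 1 ∧ T.kE g = 0 ∧ T.kF g = 0 ∧ T.kB g = 0
  /-- the identity of a curve of genus two -/
  base : ∃ g : T.Fib, T.dim g = 1 ∧ T.kE g = 1 ∧ T.kF g = 0 ∧ T.kB g = 1
  /-- the map of a curve of genus two to a point -/
  fibre : ∃ g : T.Fib, T.dim g = 1 ∧ T.kE g = 1 ∧ T.kF g = 1 ∧ T.kB g = 0

variable {T : Fibs.{u}}

/-- Iitaka's conjecture: `κ(E) ≥ κ(F) + κ(B)` for all fibrations. -/
def Iitaka (T : Fibs.{u}) : Prop := ∀ f : T.Fib, T.kF f + T.kB f ≤ T.kE f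

/-- `κ(F), κ(B) ≥ w`, and `κ(E) = -∞` or `κ(F) + κ(B) - κ(E) ≥ t`. -/
def Defect (w : ℕ) (f : T.Fib) (t : ℝ) : Prop :=
  ∃ a b : ℕ, T.kF f = a ∧ T.kB f = b ∧ w ≤ a ∧ w ≤ b ∧ ∀ d : ℕ, T.kE f = d → (d : ℝ) + t ≤ a + b

/-- `κ(E) ≥ κ(F) + κ(B) - c dim E`. -/
def Weak (c : ℝ) (f : T.Fib) : Prop :=
  ∀ a b : ℕ, T.kF f = a → T.kB f = b → ∃ d : ℕ, T.kE f = d ∧ (a : ℝ) + b - c * T.dim f ≤ d

theorem add_eq_coe {x y : WithBot ℕ} {d : ℕ} (h : x + y = d) :
    ∃ d₁ d₂ : ℕ, x = d₁ ∧ y = d₂ ∧ d = d₁ + d₂ := by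
  cases x with
  | bot => simp at h
  | coe x =>
    cases y with
    | bot => simp at h
    | coe y =>
      have h1 : WithBot.some (x + y) = WithBot.some d := h
      exact ⟨x, y, rfl, rfl, (WithBot.coe_injective h1).symm⟩

theorem defect_prod (hT : IsKnown T) (w : ℕ) (f g : T.Fib) (s t : ℝ) (hf : Defect w f s)
    (hg : Defect 0 g t) : ∃ h, T.dim h = T.dim f + T.dim g ∧ Defect w h (s + t) := by
  obtain ⟨h, h1, h2, h3, h4⟩ := hT.prod f g
  obtain ⟨a, b, ha, hb, haw, hbw, hd⟩ := hf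
  obtain ⟨a', b', ha', hb', -, -, hd'⟩ := hg
  refine ⟨h, h1, a + a', b + b', ?_, ?_, by omega, by omega, fun d hdd => ?_⟩
  · rw [h3, ha, ha']; rfl
  · rw [h4, hb, hb']; rfl
  · rw [h2] at hdd
    obtain ⟨d₁, d₂, e1, e2, rfl⟩ := add_eq_coe hdd
    have := hd _ e1
    have := hd' _ e2
    push_cast
    linarith

theorem Defect.mono {w w' : ℕ} (h : w' ≤ w) {f : T.Fib} {t : ℝ} (hf : Defect w f t) :
    Defect w' f t := by
  obtain ⟨a, b, h1, h2, h3, h4, h5⟩ := hf
  exact ⟨a, b, h1, h2, h.trans h3, h.trans h4, h5⟩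

theorem closed (hT : IsKnown T) (w : ℕ) : ∀ (f g : T.Fib) (s t : ℝ), Defect w f s → Defect w g t →
    ∃ h, T.dim h = T.dim f + T.dim g ∧ Defect w h (s + t) :=
  fun f g s t hf hg => defect_prod hT w f g s t hf (hg.mono (Nat.zero_le _))

theorem padded (hT : IsKnown T) (w : ℕ) : ∀ (f : T.Fib) (t : ℝ), Defect w f t →
    ∃ h, T.dim h = T.dim f + 1 ∧ Defect w h t := by
  intro f t hf
  obtain ⟨g, g1, g2, g3, g4⟩ := hT.elliptic
  obtain ⟨h, h1, h2⟩ := defect_prod hT w f g t 0 hf
    ⟨0, 0, g3, g4, le_rfl, le_rfl, fun d hd => by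
      rw [g2] at hd
      have : d = 0 := by exact_mod_cast hd.symm
      simp [this]⟩
  exact ⟨h, by rw [h1, g1], by simpa using h2⟩

/-- `κ(F)` and `κ(B)` can be made large -/
theorem enlarge (hT : IsKnown T) {f : T.Fib} {t : ℝ} (hf : Defect 0 f t) (w : ℕ) :
    ∃ h : T.Fib, Defect w h t := by
  induction w with
  | zero => exact ⟨f, hf⟩
  | succ w ih =>
    obtain ⟨h, a, b, ha, hb, haw, hbw, hd⟩ := ih
    obtain ⟨g, -, g2, g3, g4⟩ := hT.base
    obtain ⟨g', -, g2', g3', g4'⟩ := hT.fibre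
    obtain ⟨k, -, k2, k3, k4⟩ := hT.prod h g
    obtain ⟨l, -, l2, l3, l4⟩ := hT.prod k g'
    refine ⟨l, a + 1, b + 1, ?_, ?_, by omega, by omega, fun d hdd => ?_⟩
    · rw [l3, k3, ha, g3, g3', add_zero]; rfl
    · rw [l4, k4, hb, g4, g4', add_zero]; rfl
    · rw [l2, k2, g2, g2'] at hdd
      obtain ⟨d₁, d₂, e1, e2, rfl⟩ := add_eq_coe hdd
      obtain ⟨d₃, d₄, e3, e4, rfl⟩ := add_eq_coe e1
      have h5 := hd _ e3
      have h6 : d₂ = 1 := by exact_mod_cast e2.symm
      have h7 : d₄ = 1 := by exact_mod_cast e4.symm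
      subst h6 h7
      push_cast
      linarith

theorem defect_of_not {f : T.Fib} (h : ¬ T.kF f + T.kB f ≤ T.kE f) : Defect 0 f 1 := by
  generalize hF : T.kF f = x at h
  generalize hB : T.kB f = y at h
  generalize hE : T.kE f = z at h
  cases x with
  | bot => simp at h
  | coe x =>
    cases y with
    | bot => simp at h
    | coe y =>
      refine ⟨x, y, hF, hB, Nat.zero_le _, Nat.zero_le _, fun d hd => ?_⟩
      rw [hE] at hd
      subst hd
      have h1 : ¬ x + y ≤ d := fun h2 => h (WithBot.coe_le_coe.2 h2)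
      have h2 : d + 1 ≤ x + y := by omega
      exact_mod_cast h2

theorem iitaka_iff : Iitaka T ↔ ∀ (f : T.Fib) (t : ℝ), Defect 0 f t → t ≤ 0 := by
  constructor
  · rintro h f t ⟨a, b, ha, hb, -, -, hd⟩
    have h1 := h f
    rw [ha, hb] at h1
    generalize hE : T.kE f = z at h1
    cases z with
    | bot =>
      have h2 : ((a + b : ℕ) : WithBot ℕ) ≤ ⊥ := h1
      simp at h2
    | coe z =>
      have h2 : a + b ≤ z := WithBot.coe_le_coe.1 (h1 : WithBot.some (a + b) ≤ WithBot.some z)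
      have h3 := hd z hE
      have h4 : (a : ℝ) + b ≤ z := by exact_mod_cast h2
      linarith
  · intro h f
    by_contra hf
    exact absurd (h f 1 (defect_of_not hf)) (by norm_num)

/-- **Iitaka's conjecture fails linearly if it fails at all.** -/
theorem result (T : Fibs.{u}) (hT : IsKnown T) :
    (∀ f : T.Fib, ¬ T.kF f + T.kB f ≤ T.kE f → 0 < T.dim f → ∀ n : ℕ, T.dim f ≤ n →
      ∃ h : T.Fib, T.dim h = n ∧ Defect 0 h (n / T.dim f : ℕ)) ∧
    ∀ w : ℕ, Iitaka T ↔ ∀ c : ℝ, 0 < c → ∃ᶠ n : ℕ in atTop, ∀ f : T.Fib, T.dim f = n →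
      w ≤ T.kF f → w ≤ T.kB f → Weak c f := by
  constructor
  · intro f hf hd n hn
    obtain ⟨h, h1, h2⟩ := multiples (closed hT 0) (padded hT 0) (defect_of_not hf) hd n hn
    exact ⟨h, h1, by simpa using h2⟩
  · intro w
    rw [iitaka_iff]
    have key := amplify (closed hT w) (padded hT w)
    have h1 : (∀ (f : T.Fib) (t : ℝ), Defect 0 f t → t ≤ 0) ↔
        ∀ (f : T.Fib) (t : ℝ), Defect w f t → t ≤ 0 := by
      constructor
      · exact fun h f t hf => h f t (hf.mono (Nat.zero_le _))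
      · intro h f t hf
        obtain ⟨g, hg⟩ := enlarge hT hf w
        exact h g t hg
    rw [h1, key]
    refine forall_congr' fun c => forall_congr' fun hc => ?_
    constructor
    · intro h
      refine h.mono fun n hn f hf hF hB => ?_
      intro a b ha hb
      rw [ha] at hF
      rw [hb] at hB
      have hF' : w ≤ a := by exact_mod_cast hF
      have hB' : w ≤ b := by exact_mod_cast hB
      generalize hE : T.kE f = z
      cases z with
      | bot =>
        exfalso
        have h2 := hn f hf (c * n + 1) ⟨a, b, ha, hb, hF', hB', fun d hd => by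
          rw [hE] at hd
          exact absurd hd (by simp)⟩
        linarith
      | coe z =>
        refine ⟨z, rfl, ?_⟩
        have h2 := hn f hf (a + b - z) ⟨a, b, ha, hb, hF', hB', fun d hd => by
          rw [hE] at hd
          have h3 : z = d := WithBot.coe_injective (hd : WithBot.some z = WithBot.some d)
          rw [h3]
          linarith⟩
        rw [hf]
        linarith
    · intro h
      refine h.mono fun n hn f hf t ⟨a, b, ha, hb, haw, hbw, hd⟩ => ?_
      obtain ⟨d, h3, h4⟩ := hn f hf (by rw [ha]; exact_mod_cast haw)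
        (by rw [hb]; exact_mod_cast hbw) a b ha hb
      have h5 := hd d h3
      rw [hf] at h4
      linarith

end Pool.Agent.Results.MP_f72953_ag.LinearFailure
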